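import Pool.Agent.Helper79_TOR.Stmts

/-! Module T2L of the T2-STAB block -/

set_option autoImplicit false
set_option linter.unusedSectionVars false
set_option linter.unusedVariables false

namespace Pool.Agent.TST.H27

open Pointwise Set CategoryTheory Rep Pool.Agent.TOR Pool.Agent.TOR.H58 Pool.Agent.TST

section deg

variable {β : Type} [Fintype β] (z : β)

/-- the degree: the effects on the letters different from z -/
noncomputable def deg : Gp z →* ({b : β // b ≠ z} → Multiplicative ℤ) where
  toFun φ b := Multiplicative.ofAdd (eff z (φ : MulAut (FreeGroup β)) (FreeGroup.of b.1))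
  map_one' := by
    funext b
    rw [eff_one]; rfl
  map_mul' φ ψ := by
    funext b
    rw [eff_mul]; rfl

theorem deg_apply (φ : Gp z) (b : {b : β // b ≠ z}) :
    deg z φ b = Multiplicative.ofAdd (eff z (φ : MulAut (FreeGroup β)) (FreeGroup.of b.1)) := rfl

theorem eff_z (φ : Gp z) : eff z (φ : MulAut (FreeGroup β)) (FreeGroup.of z) = 0 := by
  unfold eff
  rw [φ.2.1, sub_self]

theorem deg_ker (φ : Gp z) : deg z φ = 1 ↔ φ ∈ Nz z := by
  rw [mem_Nz]
  constructor
  · intro h
    have h1 : effH z (φ : MulAut (FreeGroup β)) = 1 := by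
      refine fx fun b => ?_
      by_cases hb : b = z
      · subst hb
        exact congrArg Multiplicative.ofAdd (eff_z _ φ)
      · exact congrFun h ⟨b, hb⟩
    intro g
    rw [eff_eq, h1]; rfl
  · intro h
    funext b
    rw [deg_apply, h]; rfl

open Classical in
/-- x_b ↦ x_b z^(m b) -/
noncomputable def shH (m : β → ℤ) : FreeGroup β →* FreeGroup β :=
  FreeGroup.lift fun b => if b = z then FreeGroup.of z else FreeGroup.of b * FreeGroup.of z ^ m b

theorem shH_z (m : β → ℤ) : shH z m (FreeGroup.of z) = FreeGroup.of z := by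
  rw [shH, FreeGroup.lift_apply_of, if_pos rfl]

theorem shH_of (m : β → ℤ) (b : β) (hb : b ≠ z) :
    shH z m (FreeGroup.of b) = FreeGroup.of b * FreeGroup.of z ^ m b := by
  rw [shH, FreeGroup.lift_apply_of, if_neg hb]

theorem shH_comp (m n : β → ℤ) (h : ∀ b, n b = - m b) :
    (shH z m).comp (shH z n) = MonoidHom.id _ := by
  refine fx fun b => ?_
  by_cases hb : b = z
  · subst hb
    rw [MonoidHom.comp_apply, shH_z, shH_z]; rfl
  · rw [MonoidHom.comp_apply, shH_of _ _ _ hb, map_mul, map_zpow, shH_z, shH_of _ _ _ hb, h,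
      mul_assoc, ← zpow_add, add_neg_cancel, zpow_zero, mul_one]; rfl

/-- the automorphism -/
noncomputable def sh (m : β → ℤ) : MulAut (FreeGroup β) :=
  MonoidHom.toMulEquiv (shH z m) (shH z fun b => - m b)
    (shH_comp z _ _ fun b => (neg_neg _).symm) (shH_comp z _ _ fun b => rfl)

theorem sh_apply (m : β → ℤ) (x : FreeGroup β) : sh z m x = shH z m x := rfl

theorem expo_z : expo z (FreeGroup.of z) = Multiplicative.ofAdd 1 := by
  classical
  rw [expo, FreeGroup.lift_apply_of, if_pos rfl]

theorem expo_ne (y b : β) (h : b ≠ y) : expo y (FreeGroup.of b) = 1 := by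
  classical
  rw [expo, FreeGroup.lift_apply_of, if_neg h]

theorem sh_mem (m : β → ℤ) : sh z m ∈ Gp z := by
  refine ⟨by rw [sh_apply, shH_z], fun y hy g => ?_⟩
  have h : (expo y).comp (shH z m) = expo y := by
    refine fx fun b => ?_
    rw [MonoidHom.comp_apply]
    by_cases hb : b = z
    · subst hb
      rw [shH_z]
    · rw [shH_of _ _ _ hb, map_mul, map_zpow, expo_ne y z hy.symm, one_zpow, mul_one]
  exact DFunLike.congr_fun h g

theorem eff_sh (m : β → ℤ) (b : β) (hb : b ≠ z) : eff z (sh z m) (FreeGroup.of b) = m b := by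
  unfold eff
  rw [sh_apply, shH_of _ _ _ hb, map_mul, map_zpow, expo_z, expo_ne z b hb, one_mul]
  simp

theorem deg_surj : Function.Surjective (deg z) := by
  classical
  intro m
  refine ⟨⟨sh z fun b => if h : b = z then 0 else Multiplicative.toAdd (m ⟨b, h⟩), sh_mem z _⟩, ?_⟩
  funext b
  rw [deg_apply]
  change Multiplicative.ofAdd (eff z (sh z _) (FreeGroup.of b.1)) = m b
  rw [eff_sh _ _ _ b.2, dif_neg b.2]
  simp

end deg

section character

variable {β : Type} [Fintype β] (z : β)

/-- the monomials as units -/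
noncomputable def chF (R : Type) [CommRing R]
    [Algebra (MonoidAlgebra ℚ ({b : β // b ≠ z} → Multiplicative ℤ)) R] :
    ({b : β // b ≠ z} → Multiplicative ℤ) →* Rˣ :=
  (Units.map ((algebraMap (MonoidAlgebra ℚ ({b : β // b ≠ z} → Multiplicative ℤ)) R :
      MonoidAlgebra ℚ ({b : β // b ≠ z} → Multiplicative ℤ) →* R).comp
      (MonoidAlgebra.of ℚ ({b : β // b ≠ z} → Multiplicative ℤ)))).comp
      (toUnits : ({b : β // b ≠ z} → Multiplicative ℤ) ≃* _).toMonoidHom

theorem chF_val (R : Type) [CommRing R]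
    [Algebra (MonoidAlgebra ℚ ({b : β // b ≠ z} → Multiplicative ℤ)) R]
    (m : {b : β // b ≠ z} → Multiplicative ℤ) :
    ((chF z R m : Rˣ) : R) = algebraMap _ R (MonoidAlgebra.single m (1 : ℚ)) := rfl

open Classical in
/-- the letters of the group ring, inverted -/
noncomputable def chU (R : Type) [CommRing R]
    [Algebra (MonoidAlgebra ℚ ({b : β // b ≠ z} → Multiplicative ℤ)) R] (b : β) : Rˣ :=
  if h : b = z then 1 else
    chF z R (Pi.mulSingle (⟨b, h⟩ : {b : β // b ≠ z}) (Multiplicative.ofAdd (-1 : ℤ)))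

theorem chU_eq (R : Type) [CommRing R]
    [Algebra (MonoidAlgebra ℚ ({b : β // b ≠ z} → Multiplicative ℤ)) R] :
    (algebraMap (MonoidAlgebra ℚ ({b : β // b ≠ z} → Multiplicative ℤ)) R :
      MonoidAlgebra ℚ ({b : β // b ≠ z} → Multiplicative ℤ) →* R).comp (uL (deg z)⁻¹) =
    chR z (chU z R) := by
  classical
  refine MonoidHom.ext fun φ => ?_
  change ((chF z R ((deg z)⁻¹ φ) : Rˣ) : R) = ((chr z (chU z R) φ : Rˣ) : R)
  congr 1
  rw [chr_apply, Fintype.prod_eq_mul_prod_subtype_ne _ z, chU, dif_pos rfl, one_zpow, one_mul]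
  have h1 : ∀ b : {b : β // b ≠ z}, chU z R b.1 ^ eff z (φ : MulAut (FreeGroup β))
      (FreeGroup.of b.1) = chF z R (Pi.mulSingle b ((deg z)⁻¹ φ b)) := by
    intro b
    rw [chU, dif_neg b.2, ← map_zpow]
    congr 1
    rw [← Pi.mulSingle_zpow]
    congr 1
    rw [MonoidHom.inv_apply, Pi.inv_apply, deg_apply, ← ofAdd_neg, ← ofAdd_zsmul]
    simp
  rw [Finset.prod_congr rfl fun b _ => h1 b, ← map_prod, Finset.univ_prod_mulSingle]

end character

theorem unit_aux {R : Type} [CommRing R] (v : Rˣ) :
    ((v⁻¹ : Rˣ) : R) - 1 = -((v⁻¹ : Rˣ) : R) * ((v : R) - 1) := by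
  have h := v.inv_mul
  linear_combination h

theorem t2l (h1 : T2S) (h2 : TOZ) : T2L := by
  classical
  intro q ι β _ _ e z i hi hcard τ hτ1 hτ2 ψ hψ x
  have hei : e i ≠ e z := fun h => hi (e.injective h)
  -- the action of U
  have hwell : ∀ g h : Gp (e z), deg (e z) g = deg (e z) h →
      cR (Nz (e z)) q g = cR (Nz (e z)) q h := by
    intro g h hgh
    have e1 : g = h * (h⁻¹ * g) := by group
    have e2 : h⁻¹ * g ∈ Nz (e z) := by
      rw [← deg_ker, map_mul, map_inv, hgh, inv_mul_cancel]
    rw [e1, map_mul, cR_mem (Nz (e z)) q _ e2, mul_one]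
  choose s0 hs0 using deg_surj (e z)
  let U := {b : β // b ≠ e z} → Multiplicative ℤ
  let ρ : U →* Module.End ℚ (groupHomology (Rep.trivial ℚ (Nz (e z)) ℚ) q) :=
    { toFun := fun m => cR (Nz (e z)) q (s0 m)
      map_one' := by
        have h := hwell (s0 1) 1 (by rw [hs0, map_one])
        rw [h]
        exact map_one _
      map_mul' := fun a b => by
        have h := hwell (s0 (a * b)) (s0 a * s0 b) (by rw [map_mul, hs0, hs0, hs0])
        rw [h]
        exact map_mul _ _ _ }
  have hρ : ∀ g : Gp (e z), ρ (deg (e z) g) = cR (Nz (e z)) q g := fun g => hwell _ _ (hs0 _)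
  let L := MonoidAlgebra.lift ℚ (Module.End ℚ (groupHomology (Rep.trivial ℚ (Nz (e z)) ℚ) q)) U ρ
  let y := (groupHomology.map (upN e z) ψ q).hom x
  -- annihilator ideal
  let I : Ideal (MonoidAlgebra ℚ U) :=
    { carrier := {p | L p y = 0}
      add_mem' := by
        intro a b ha hb
        change L (a + b) y = 0
        rw [map_add, LinearMap.add_apply]
        have ha' : L a y = 0 := ha
        have hb' : L b y = 0 := hb
        rw [ha', hb', add_zero]
      zero_mem' := by
        change L 0 y = 0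
        rw [map_zero]; rfl
      smul_mem' := by
        intro a b hb
        change L (a * b) y = 0
        have hb' : L b y = 0 := hb
        rw [map_mul, Module.End.mul_apply, hb', map_zero] }
  let T : MonoidAlgebra ℚ U := MonoidAlgebra.single (deg (e z) τ) 1 - 1
  by_contra hcon
  push Not at hcon
  have hdisj : ∀ m : ℕ, T ^ m ∉ I := by
    intro m hm
    apply hcon m
    have h3 : L (T ^ m) y = 0 := hm
    have h4 : L T = cR (Nz (e z)) q τ - 1 := by
      change L (MonoidAlgebra.single (deg (e z) τ) 1 - 1) = _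
      rw [map_sub, map_one]
      congr 1
      change MonoidAlgebra.lift ℚ _ U ρ (MonoidAlgebra.single (deg (e z) τ) 1) = _
      rw [MonoidAlgebra.lift_single, one_smul, hρ]
    rw [map_pow, h4] at h3
    exact h3
  obtain ⟨P, hP, hIP, hPd⟩ := Ideal.exists_le_prime_disjoint I (Submonoid.powers T) (by
    rw [Set.disjoint_left]
    rintro a ha ⟨m, rfl⟩
    exact hdisj m ha)
  have hT : T ∉ P := fun h => Set.disjoint_left.1 hPd h ⟨1, pow_one T⟩
  -- the letter is active
  have hdτ : deg (e z) τ = Pi.mulSingle (⟨e i, hei⟩ : {b : β // b ≠ e z})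
      (Multiplicative.ofAdd (1 : ℤ)) := by
    funext b
    rw [deg_apply]
    by_cases hb : b.1 = e i
    · have hb2 : b = ⟨e i, hei⟩ := Subtype.ext hb
      subst hb2
      rw [Pi.mulSingle_eq_same]
      unfold eff
      rw [hτ1, map_mul, expo_z, expo_ne _ _ hei, one_mul]
      rfl
    · have hb2 : b ≠ ⟨e i, hei⟩ := fun h => hb (congrArg Subtype.val h)
      rw [Pi.mulSingle_eq_of_ne hb2]
      unfold eff
      rw [hτ2 _ hb, sub_self]; rfl
  have hact : IsUnit ((chU (e z) (Localization.AtPrime P) (e i) : Localization.AtPrime P) - 1) := by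
    have e1 : IsUnit (algebraMap (MonoidAlgebra ℚ U) (Localization.AtPrime P) T) :=
      IsLocalization.map_units (Localization.AtPrime P) (⟨T, hT⟩ : P.primeCompl)
    have e2 : chU (e z) (Localization.AtPrime P) (e i) =
        (chF (e z) (Localization.AtPrime P) (deg (e z) τ))⁻¹ := by
      rw [chU, dif_neg hei, ← map_inv, hdτ]
      congr 1
      rw [← Pi.mulSingle_inv]
      rfl
    have e3 : algebraMap (MonoidAlgebra ℚ U) (Localization.AtPrime P) T =
        ((chF (e z) (Localization.AtPrime P) (deg (e z) τ) : (Localization.AtPrime P)ˣ) :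
          Localization.AtPrime P) - 1 := by
      rw [chF_val]
      change algebraMap (MonoidAlgebra ℚ U) (Localization.AtPrime P) (_ - 1) = _
      rw [map_sub, map_one]
    rw [e3] at e1
    rw [e2]
    rw [unit_aux]
    exact ((Units.isUnit _).neg).mul e1
  have key : ∀ (u : Gp (e z) →* Localization.AtPrime P) (u' : Gp z →* Localization.AtPrime P),
      u = chR (e z) (chU (e z) (Localization.AtPrime P)) →
      u' = chR z (fun i => chU (e z) (Localization.AtPrime P) (e i)) →
      ∀ f : chRep (Localization.AtPrime P) u' ⟶ res (upG e z) (chRep (Localization.AtPrime P) u),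
        (∀ r : Localization.AtPrime P, (f.hom r : Localization.AtPrime P) = r) →
        groupHomology.map (upG e z) f q = 0 := by
    rintro _ _ rfl rfl f hf
    exact h1 q (Localization.AtPrime P) ι β e z (chU (e z) (Localization.AtPrime P)) i hi hact
      hcard f hf
  have hM : P.primeCompl ≤ nonZeroDivisors (MonoidAlgebra ℚ U) :=
    P.primeCompl_le_nonZeroDivisors
  obtain ⟨p, hp, h⟩ := h2 (Gp z) (Gp (e z)) (Nz z) (Nz (e z)) (upG e z) (upN e z)
    (fun x => upN_coe e z x) U (deg (e z)) (deg_ker (e z)) (deg_surj (e z))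
    (Localization.AtPrime P) P.primeCompl hM q ρ hρ
    (key _ _ (chU_eq (e z) (Localization.AtPrime P)) (by
      rw [chU_eq (e z) (Localization.AtPrime P)]
      refine MonoidHom.ext fun φ => ?_
      exact chR_up e z _ φ)) ψ hψ x
  exact hp (hIP h)

end Pool.Agent.TST.H27
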